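import Mathlib
import Pool.Agent.H56.BhProof

namespace Pool.Agent.Results.MP_e482b1_nt.Counter

open Pool.Agent.H56.Bh

lemma hP : ∀ x ∈ ({2, 3, 5, 7, 11, 13, 17, 19, 23, 29, 31, 37, 41, 43, 47, 61, 67, 73, 79, 101, 127, 131, 137} : Finset ℤ), x ∈ primes := by
  intro x hx
  rw [primes_iff]
  simp only [Finset.mem_insert, Finset.mem_singleton] at hx
  rcases hx with rfl | rfl | rfl | rfl | rfl | rfl | rfl | rfl | rfl | rfl | rfl | rfl | rfl | rfl | rfl | rfl | rfl | rfl | rfl | rfl | rfl | rfl | rfl <;> norm_num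

lemma hT : ∀ x ∈ ({3, 5, 7, 11, 13, 17, 19, 29, 31, 41, 43, 59, 73, 103, 107, 109, 137, 139, 149, 151, 199, 227, 229, 241, 269, 271, 347, 433, 569} : Finset ℤ), x ∈ twins := by
  intro x hx
  simp only [twins, Set.mem_ofPred_eq, primes_iff]
  simp only [Finset.mem_insert, Finset.mem_singleton] at hx
  rcases hx with rfl | rfl | rfl | rfl | rfl | rfl | rfl | rfl | rfl | rfl | rfl | rfl | rfl | rfl | rfl | rfl | rfl | rfl | rfl | rfl | rfl | rfl | rfl | rfl | rfl | rfl | rfl | rfl | rfl <;> norm_num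

theorem result :
    ∃ n : ℕ, 1 ≤ n ∧ (∃ F, IsFactorial twins n F) ∧ (∃ G, IsFactorial primes n G) ∧
      ∀ F G : ℕ, IsFactorial twins n F → IsFactorial primes n G → F ≠ 2 * w 2 n * G := by
  refine ⟨22, by norm_num, exists_factorial _ hT (by decide), exists_factorial _ hP (by decide), ?_⟩
  intro F G hF hG h
  have h1 : 23 ∣ F := dvd_of_not_mem (p := 23) (by norm_num) (fun x hx => hx.1) (by
    simp only [twins, Set.mem_ofPred_eq, primes_iff]; norm_num) hF
  have h2 : ¬ 23 ∣ G := not_dvd_of_many (p := 23) (by norm_num) _ hP (by decide) hG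
  rw [h, w, Nat.Prime.dvd_mul (by norm_num), Nat.Prime.dvd_mul (by norm_num)] at h1
  rcases h1 with (h1 | h1) | h1
  · omega
  · have := Nat.Prime.dvd_of_dvd_pow (by norm_num) h1
    omega
  · exact h2 h1

end Pool.Agent.Results.MP_e482b1_nt.Counter
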